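import Pool.Agent.Helper92.Ru.GoalsV

/-!
# Packet PtAll (P14) for MP_d1d051_nt: the data of a point satisfy `PtOK`
-/

set_option autoImplicit false

open NumberField MvPolynomial

namespace Pool.Agent.Helper74.Ru

open Pool.Agent.Helper92.Ru

section aux

theorem sup_pos' {L : Type} [Field L] {n : ℕ} {g : L → ℝ} (hg : ∀ y, y ≠ 0 → 0 < g y)
    (x : Fin (n + 1) → L) (hx : x ≠ 0) : 0 < ⨆ j, g (x j) := by
  obtain ⟨j, hj⟩ := Function.ne_iff.1 hx
  exact (hg _ hj).trans_le (le_ciSup (f := fun j => g (x j)) (Set.finite_range _).bddAbove j)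

theorem sup_att {α : Type} {n : ℕ} (g : α → ℝ) (x : Fin (n + 1) → α) :
    ∃ j, g (x j) = ⨆ j, g (x j) :=
  exists_eq_ciSup_of_finite (f := fun j => g (x j))

variable {L : Type} [Field L] [NumberField L]

theorem supI_pos {n : ℕ} (w : InfinitePlace L) (x : Fin (n + 1) → L) (hx : x ≠ 0) :
    0 < ⨆ j, w (x j) :=
  sup_pos' (g := fun y => w y) (fun y hy => InfinitePlace.pos_iff.2 hy) x hx

theorem supF_pos {n : ℕ} (w : FinitePlace L) (x : Fin (n + 1) → L) (hx : x ≠ 0) :
    0 < ⨆ j, w (x j) :=
  sup_pos' (g := fun y => w y) (fun y hy => FinitePlace.pos_iff.2 hy) x hx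

/-- almost all local sizes are one -/
theorem supF_fin {n : ℕ} (x : Fin (n + 1) → L) (hx : x ≠ 0) :
    {w : FinitePlace L | (⨆ j, w (x j)) ≠ 1}.Finite := by
  classical
  have h1 : (⋃ j ∈ {j : Fin (n + 1) | x j ≠ 0},
      Function.mulSupport (fun w : FinitePlace L => w (x j))).Finite := by
    apply Set.Finite.biUnion (Set.toFinite _)
    intro j hj
    exact FinitePlace.hasFiniteMulSupport hj
  refine h1.subset ?_
  intro w hw
  by_contra hcon
  simp only [Set.mem_iUnion, not_exists] at hcon
  apply hw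
  obtain ⟨j0, hj0⟩ := sup_att (fun y : L => w y) x
  have hpos : 0 < w (x j0) := by
    rw [hj0]; exact supF_pos w x hx
  have hne : x j0 ≠ 0 := FinitePlace.pos_iff.1 hpos
  have := hcon j0 hne
  rw [Function.mem_mulSupport, not_not] at this
  rw [← hj0]
  exact this

theorem wF_fin {y : L} (hy : y ≠ 0) : {w : FinitePlace L | w y ≠ 1}.Finite :=
  FinitePlace.hasFiniteMulSupport hy

end aux

section main

variable {k : Type} [Field k] [NumberField k] {T : Finset (FinitePlace k)}
variable {L : Type} [Field L] [NumberField L] [Algebra k L]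

theorem fprod (v : FinitePlace k) (hfin : {w : FinitePlace L | Above v w}.Finite)
    (f : FinitePlace L → ℝ) :
    ∏ᶠ (w : FinitePlace L) (_ : Above v w), f w = ∏ w ∈ hfin.toFinset, f w :=
  finprod_mem_eq_finite_toFinset_prod f hfin

theorem fsum (v : FinitePlace k) (hfin : {w : FinitePlace L | Above v w}.Finite)
    (f : FinitePlace L → ℝ) :
    ∑ᶠ (w : FinitePlace L) (_ : Above v w), f w = ∑ w ∈ hfin.toFinset, f w :=
  finsum_mem_eq_finite_toFinset_sum f hfin

theorem XFin_pos {n : ℕ} (x : Fin (n + 1) → L) (hx : x ≠ 0) (v : FinitePlace k) :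
    0 < XFin x v := by
  apply finprod_mem_induction (s := {w : FinitePlace L | Above v w}) (fun r : ℝ => 0 < r)
    one_pos (fun a b ha hb => mul_pos ha hb)
  intro w _
  exact supF_pos w x hx

theorem XInf_pos {n : ℕ} (x : Fin (n + 1) → L) (hx : x ≠ 0) (v : InfinitePlace k) :
    0 < XInf x v := by
  apply Finset.prod_pos
  intro w _
  exact pow_pos (supI_pos w.1 x hx) _

/-- the local size at a finite place is a power of `q_v` -/
theorem XFin_pow (hPow : PlPow) {n : ℕ} (x : Fin (n + 1) → L) (hx : x ≠ 0) (v : FinitePlace k) :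
    ∃ j : ℤ, XFin x v = (qw v : ℝ) ^ j := by
  have hq : 0 < (qw v : ℝ) := by
    have : qw v ≠ 0 := by
      unfold qw
      rw [Ne, Ideal.absNorm_eq_zero_iff]
      exact v.maximalIdeal.ne_bot
    exact_mod_cast Nat.pos_of_ne_zero this
  apply finprod_mem_induction (s := {w : FinitePlace L | Above v w})
    (fun r : ℝ => ∃ j : ℤ, r = (qw v : ℝ) ^ j)
  · exact ⟨0, by simp⟩
  · rintro a b ⟨i, rfl⟩ ⟨j, rfl⟩
    exact ⟨i + j, by rw [zpow_add₀ hq.ne']⟩
  · intro w hw
    obtain ⟨j0, hj0⟩ := sup_att (fun y : L => w y) x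
    have hpos : 0 < w (x j0) := by
      rw [hj0]; exact supF_pos w x hx
    have hne : x j0 ≠ 0 := FinitePlace.pos_iff.1 hpos
    obtain ⟨j, hj⟩ := (hPow k L v w hw).2 (x j0) hne
    exact ⟨j, by rw [← hj0]; exact hj⟩

theorem qw_gt_one (v : FinitePlace k) : 1 < (qw v : ℝ) := by
  have h0 : qw v ≠ 0 := by
    unfold qw
    rw [Ne, Ideal.absNorm_eq_zero_iff]
    exact v.maximalIdeal.ne_bot
  have h1 : qw v ≠ 1 := by
    unfold qw
    rw [Ne, Ideal.absNorm_eq_one_iff]
    exact v.maximalIdeal.isPrime.ne_top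
  have : 1 < qw v := by omega
  exact_mod_cast this

theorem z_eq (hPow : PlPow) {n q d : ℕ} (a : Fin q → Fin (n + 1) → k)
    (σ : Fin d → (L →ₐ[k] AlgebraicClosure k)) (x : Fin (n + 1) → L) (hx : x ≠ 0)
    (v : FinitePlace k) (hv : v ∉ T) :
    XFin x v = (qw v : ℝ) ^ ((ptOf T a σ x).z v) := by
  classical
  obtain ⟨j, hj⟩ := XFin_pow (k := k) hPow x hx v
  have hz : (ptOf T a σ x).z v = ⌊Real.logb (qw v) (XFin x v)⌋ := by
    simp only [ptOf, hv, if_false]
  rw [hz, hj]
  have hq := qw_gt_one v
  have : Real.logb (qw v : ℝ) ((qw v : ℝ) ^ j) = j := by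
    rw [← Real.rpow_intCast, Real.logb_rpow (by linarith) (by linarith)]
  rw [this, Int.floor_intCast]

theorem z_fin (hBel : PlBelow) {n q d : ℕ} (a : Fin q → Fin (n + 1) → k)
    (σ : Fin d → (L →ₐ[k] AlgebraicClosure k)) (x : Fin (n + 1) → L) (hx : x ≠ 0) :
    ((ptOf T a σ x).z).support.Finite := by
  classical
  choose f hf using fun w : FinitePlace L => (hBel k L w)
  have h1 := (supF_fin x hx).image f
  refine h1.subset ?_
  intro v hv
  rw [Function.mem_support] at hv
  have hvT : v ∉ T := by
    intro h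
    apply hv
    simp only [ptOf, h, if_true]
  have hX : XFin x v ≠ 1 := by
    intro h
    apply hv
    simp only [ptOf, hvT, if_false, h, Real.logb_one, Int.floor_zero]
  by_contra hcon
  apply hX
  show ∏ᶠ (w : FinitePlace L) (_ : w ∈ {w : FinitePlace L | Above v w}), (⨆ j, w (x j)) = 1
  apply finprod_mem_of_eqOn_one
  intro w hw
  by_contra hne
  apply hcon
  refine ⟨w, hne, ?_⟩
  exact ((hf w).2 v hw).symm

end main

section bounds

variable {k : Type} [Field k] [NumberField k]
variable {L : Type} [Field L] [NumberField L] [Algebra k L]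

/-- size of the coefficients of the hyperplane -/
noncomputable def szI {n : ℕ} (a : Fin (n + 1) → k) (v : InfinitePlace k) : ℝ :=
  max 1 (⨆ j, v (a j))

noncomputable def szF {n : ℕ} (a : Fin (n + 1) → k) (v : FinitePlace k) : ℝ :=
  max 1 (⨆ j, v (a j))

theorem multI_le (w : InfinitePlace L) : w.mult ≤ 2 := by
  unfold InfinitePlace.mult; split_ifs <;> simp

theorem one_le_multI (w : InfinitePlace L) : 1 ≤ w.mult := InfinitePlace.mult_pos

theorem aI_prod (hAb : PlAbove) {n : ℕ} (a : Fin (n + 1) → k) (v : InfinitePlace k) :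
    ∏ w : AbI L v, (⨆ j, w.1 (algebraMap k L (a j))) ^ w.1.mult ≤
      szI a v ^ (2 * Module.finrank k L) := by
  have h1 : ∀ w : AbI L v, (⨆ j, w.1 (algebraMap k L (a j))) ^ w.1.mult ≤ szI a v ^ 2 := by
    intro w
    have h2 : ∀ c : k, w.1 (algebraMap k L c) = v c := by
      intro c
      calc w.1 (algebraMap k L c) = (w.1.comap (algebraMap k L)) c := rfl
        _ = v c := by rw [w.2]
    simp only [h2]
    have h3 : (⨆ j, v (a j)) ≤ szI a v := le_max_right _ _
    have h0 : 0 ≤ ⨆ j, v (a j) := Real.iSup_nonneg fun j => apply_nonneg v _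
    calc (⨆ j, v (a j)) ^ w.1.mult ≤ szI a v ^ w.1.mult := pow_le_pow_left₀ h0 h3 _
      _ ≤ szI a v ^ 2 := pow_le_pow_right₀ (le_max_left _ _) (multI_le w.1)
  calc ∏ w : AbI L v, (⨆ j, w.1 (algebraMap k L (a j))) ^ w.1.mult
      ≤ ∏ w : AbI L v, szI a v ^ 2 := by
        apply Finset.prod_le_prod
        · intro w _
          exact pow_nonneg (Real.iSup_nonneg fun j => apply_nonneg w.1 _) _
        · intro w _; exact h1 w
    _ = (szI a v ^ 2) ^ Fintype.card (AbI L v) := by
        rw [Finset.prod_const, Finset.card_univ]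
    _ ≤ (szI a v ^ 2) ^ Module.finrank k L := by
        apply pow_le_pow_right₀
        · exact one_le_pow₀ (le_max_left _ _)
        · exact (hAb k L).2 v
    _ = _ := by rw [← pow_mul]

theorem aF_prod (hAb : PlAbove) (hPow : PlPow) {n : ℕ} (a : Fin (n + 1) → k)
    (v : FinitePlace k) (hfin : {w : FinitePlace L | Above v w}.Finite) :
    ∏ w ∈ hfin.toFinset, (⨆ j, w (algebraMap k L (a j))) ≤
      szF a v ^ (Module.finrank k L * Module.finrank k L) := by
  have h1 : ∀ w ∈ hfin.toFinset, (⨆ j, w (algebraMap k L (a j))) ≤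
      szF a v ^ Module.finrank k L := by
    intro w hw
    rw [Set.Finite.mem_toFinset] at hw
    obtain ⟨e, he1, he2, he⟩ := (hPow k L v w hw).1
    simp only [he]
    apply ciSup_le
    intro j
    have h3 : v (a j) ≤ szF a v :=
      (le_ciSup (f := fun j => v (a j)) (Set.finite_range _).bddAbove j).trans (le_max_right _ _)
    calc v (a j) ^ e ≤ szF a v ^ e := pow_le_pow_left₀ (apply_nonneg v _) h3 _
      _ ≤ szF a v ^ Module.finrank k L := pow_le_pow_right₀ (le_max_left _ _) he2
  calc ∏ w ∈ hfin.toFinset, (⨆ j, w (algebraMap k L (a j)))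
      ≤ ∏ w ∈ hfin.toFinset, szF a v ^ Module.finrank k L := by
        apply Finset.prod_le_prod
        · intro w _
          exact Real.iSup_nonneg fun j => apply_nonneg w _
        · exact h1
    _ = (szF a v ^ Module.finrank k L) ^ hfin.toFinset.card := by
        rw [Finset.prod_const]
    _ ≤ (szF a v ^ Module.finrank k L) ^ Module.finrank k L := by
        apply pow_le_pow_right₀
        · exact one_le_pow₀ (le_max_left _ _)
        · have := ((hAb k L).1 v).2
          rwa [Set.ncard_eq_toFinset_card _ hfin] at this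
    _ = _ := by rw [← pow_mul]

end bounds

section final

theorem GP.ne_zero {k : Type} [Field k] {n q : ℕ} {a : Fin q → Fin (n + 1) → k} (ha : GP a)
    (i : Fin q) : a i ≠ 0 := by
  have h := ha {i} (by simp)
  exact h.ne_zero ⟨i, by simp⟩

variable {k : Type} [Field k] [NumberField k] {T : Finset (FinitePlace k)}
variable {L : Type} [Field L] [NumberField L] [Algebra k L]

/-- the norm bound at infinite places -/
theorem norm_inf (hAb : PlAbove) (hNI : NormInf) {n : ℕ} (a : Fin (n + 1) → k) (ha : a ≠ 0)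
    (x : Fin (n + 1) → L) (hx : x ≠ 0) (hl : ∑ j, algebraMap k L (a j) * x j ≠ 0)
    (v : InfinitePlace k) :
    v (Algebra.norm k (∑ j, algebraMap k L (a j) * x j)) ^ v.mult ≤
      szI a v ^ (2 * Module.finrank k L) * XInf x v *
        Real.exp (-∑ w : AbI L v, (w.1.mult : ℝ) * prI a x w.1) := by
  rw [hNI k L v]
  have ha' : (fun j => algebraMap k L (a j)) ≠ 0 := by
    intro h
    apply ha
    funext j
    have := congrFun h j
    simpa using this
  have hexp : Real.exp (-∑ w : AbI L v, (w.1.mult : ℝ) * prI a x w.1) =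
      ∏ w : AbI L v, (w.1 (∑ j, algebraMap k L (a j) * x j) /
        ((⨆ j, w.1 (x j)) * (⨆ j, w.1 (algebraMap k L (a j))))) ^ w.1.mult := by
    rw [← Finset.sum_neg_distrib, Real.exp_sum]
    apply Finset.prod_congr rfl
    intro w _
    have h1 := supI_pos w.1 x hx
    have h2 := supI_pos w.1 _ ha'
    have h3 : 0 < w.1 (∑ j, algebraMap k L (a j) * x j) := InfinitePlace.pos_iff.2 hl
    unfold prI
    rw [← mul_neg, Real.exp_nat_mul, ← Real.log_inv, Real.exp_log (by positivity), inv_div]
  rw [hexp]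
  have hA := aI_prod (L := L) hAb a v
  have hApos : 0 < ∏ w : AbI L v, (⨆ j, w.1 (algebraMap k L (a j))) ^ w.1.mult :=
    Finset.prod_pos fun w _ => pow_pos (supI_pos w.1 _ ha') _
  have hsplit : ∏ w : AbI L v, w.1 (∑ j, algebraMap k L (a j) * x j) ^ w.1.mult =
      (∏ w : AbI L v, (⨆ j, w.1 (algebraMap k L (a j))) ^ w.1.mult) * XInf x v *
      ∏ w : AbI L v, (w.1 (∑ j, algebraMap k L (a j) * x j) /
        ((⨆ j, w.1 (x j)) * (⨆ j, w.1 (algebraMap k L (a j))))) ^ w.1.mult := by
    unfold XInf
    rw [← Finset.prod_mul_distrib, ← Finset.prod_mul_distrib]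
    apply Finset.prod_congr rfl
    intro w _
    have h1 := supI_pos w.1 x hx
    have h2 := supI_pos w.1 _ ha'
    rw [← mul_pow, ← mul_pow]
    congr 1
    field_simp
  rw [hsplit]
  apply mul_le_mul_of_nonneg_right _ _
  · exact mul_le_mul_of_nonneg_right hA (XInf_pos x hx v).le
  · apply Finset.prod_nonneg
    intro w _
    have h1 := supI_pos w.1 x hx
    have h2 := supI_pos w.1 _ ha'
    have h3 : 0 ≤ w.1 (∑ j, algebraMap k L (a j) * x j) := apply_nonneg _ _
    positivity

/-- the norm bound at finite places -/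
theorem norm_fin (hAb : PlAbove) (hPow : PlPow) (hN : PlNorm) {n : ℕ} (a : Fin (n + 1) → k)
    (ha : a ≠ 0) (x : Fin (n + 1) → L) (hx : x ≠ 0)
    (hl : ∑ j, algebraMap k L (a j) * x j ≠ 0) (v : FinitePlace k) :
    v (Algebra.norm k (∑ j, algebraMap k L (a j) * x j)) ≤
      szF a v ^ (Module.finrank k L * Module.finrank k L) * XFin x v *
        Real.exp (-∑ᶠ (w : FinitePlace L) (_ : Above v w), prF a x w) := by
  have hfin := ((hAb k L).1 v).1
  rw [hN k L v _ hl, fprod v hfin, fsum v hfin]
  have ha' : (fun j => algebraMap k L (a j)) ≠ 0 := by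
    intro h
    apply ha
    funext j
    have := congrFun h j
    simpa using this
  have hexp : Real.exp (-∑ w ∈ hfin.toFinset, prF a x w) =
      ∏ w ∈ hfin.toFinset, (w (∑ j, algebraMap k L (a j) * x j) /
        ((⨆ j, w (x j)) * (⨆ j, w (algebraMap k L (a j))))) := by
    rw [← Finset.sum_neg_distrib, Real.exp_sum]
    apply Finset.prod_congr rfl
    intro w _
    have h1 := supF_pos w x hx
    have h2 := supF_pos w _ ha'
    have h3 : 0 < w (∑ j, algebraMap k L (a j) * x j) := FinitePlace.pos_iff.2 hl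
    unfold prF
    rw [← Real.log_inv, Real.exp_log (by positivity), inv_div]
  rw [hexp]
  have hA := aF_prod (L := L) hAb hPow a v hfin
  have hX : XFin x v = ∏ w ∈ hfin.toFinset, (⨆ j, w (x j)) := by
    unfold XFin
    rw [fprod v hfin]
  have hsplit : ∏ w ∈ hfin.toFinset, w (∑ j, algebraMap k L (a j) * x j) =
      (∏ w ∈ hfin.toFinset, (⨆ j, w (algebraMap k L (a j)))) * XFin x v *
      ∏ w ∈ hfin.toFinset, (w (∑ j, algebraMap k L (a j) * x j) /
        ((⨆ j, w (x j)) * (⨆ j, w (algebraMap k L (a j))))) := by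
    rw [hX, ← Finset.prod_mul_distrib, ← Finset.prod_mul_distrib]
    apply Finset.prod_congr rfl
    intro w _
    have h1 := supF_pos w x hx
    have h2 := supF_pos w _ ha'
    field_simp
  rw [hsplit]
  apply mul_le_mul_of_nonneg_right _ _
  · exact mul_le_mul_of_nonneg_right hA (XFin_pos x hx v).le
  · apply Finset.prod_nonneg
    intro w _
    have h1 := supF_pos w x hx
    have h2 := supF_pos w _ ha'
    have h3 : 0 ≤ w (∑ j, algebraMap k L (a j) * x j) := apply_nonneg _ _
    positivity

/-- total proximity of one hyperplane -/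
theorem lam_sum (hSums : PtSums) (hLow : PrLow) {n d : ℕ} (a : Fin (n + 1) → k) (ha : a ≠ 0)
    (σ : Fin d → (L →ₐ[k] AlgebraicClosure k)) (x : Fin (n + 1) → L) (hx : x ≠ 0)
    (hl : ∑ j, algebraMap k L (a j) * x j ≠ 0) (C : ℝ)
    (hC : (∑ w : InfinitePlace L, (w.mult : ℝ) * Real.log (⨆ j, w (algebraMap k L (a j)))) +
        ∑ᶠ w : FinitePlace L, Real.log (⨆ j, w (algebraMap k L (a j))) ≤ C) :
    (ptOf T (fun _ : Fin 1 => a) σ x).tot ≤ Real.log (ptOf T (fun _ : Fin 1 => a) σ x).H + C := by
  classical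
  obtain ⟨h1, h2, -⟩ := hSums k T n 1 d (fun _ : Fin 1 => a) L σ x hx
  rw [h1, h2]
  have ha' : (fun j => algebraMap k L (a j)) ≠ 0 := by
    intro h
    apply ha
    funext j
    have := congrFun h j
    simpa using this
  simp only [Finset.univ_unique, Finset.sum_singleton]
  set l := ∑ j, algebraMap k L (a j) * x j with hldef
  have hlow := (hLow k L n a x hl).2
  -- log supports
  have s1 : (Function.support fun w : FinitePlace L => Real.log (⨆ j, w (x j))).Finite := by
    refine (supF_fin x hx).subset ?_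
    intro w hw h
    apply hw
    simp only [h, Real.log_one]
  have s2 : (Function.support fun w : FinitePlace L =>
      Real.log (⨆ j, w (algebraMap k L (a j)))).Finite := by
    refine (supF_fin _ ha').subset ?_
    intro w hw h
    apply hw
    simp only [h, Real.log_one]
  have s3 : (Function.support fun w : FinitePlace L => Real.log (w l)).Finite := by
    refine (wF_fin hl).subset ?_
    intro w hw h
    apply hw
    simp only [h, Real.log_one]
  have hF : ∀ w : FinitePlace L, prF a x w = Real.log (⨆ j, w (x j)) +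
      Real.log (⨆ j, w (algebraMap k L (a j))) - Real.log (w l) := by
    intro w
    have p1 := supF_pos w x hx
    have p2 := supF_pos w _ ha'
    have p3 : 0 < w l := FinitePlace.pos_iff.2 hl
    unfold prF
    rw [Real.log_div (by positivity) p3.ne', Real.log_mul p1.ne' p2.ne']
  have hI : ∀ w : InfinitePlace L, prI a x w = Real.log (⨆ j, w (x j)) +
      Real.log (⨆ j, w (algebraMap k L (a j))) - Real.log (w l) := by
    intro w
    have p1 := supI_pos w x hx
    have p2 := supI_pos w _ ha'
    have p3 : 0 < w l := InfinitePlace.pos_iff.2 hl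
    unfold prI
    rw [Real.log_div (by positivity) p3.ne', Real.log_mul p1.ne' p2.ne']
  -- a common finite set
  set S : Finset (FinitePlace L) := s1.toFinset ∪ s2.toFinset ∪ s3.toFinset with hS
  have f1 : ∑ᶠ w : FinitePlace L, Real.log (⨆ j, w (x j)) =
      ∑ w ∈ S, Real.log (⨆ j, w (x j)) := by
    apply finsum_eq_sum_of_support_subset
    intro w hw
    simp only [hS, Finset.coe_union, Set.Finite.coe_toFinset]
    exact Or.inl (Or.inl hw)
  have f2 : ∑ᶠ w : FinitePlace L, Real.log (⨆ j, w (algebraMap k L (a j))) =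
      ∑ w ∈ S, Real.log (⨆ j, w (algebraMap k L (a j))) := by
    apply finsum_eq_sum_of_support_subset
    intro w hw
    simp only [hS, Finset.coe_union, Set.Finite.coe_toFinset]
    exact Or.inl (Or.inr hw)
  have f3 : ∏ᶠ w : FinitePlace L, w l = ∏ w ∈ S, w l := by
    apply finprod_eq_prod_of_mulSupport_subset
    intro w hw
    simp only [hS, Finset.coe_union, Set.Finite.coe_toFinset]
    right
    intro h
    apply hw
    have p3 : 0 < w l := FinitePlace.pos_iff.2 hl
    exact Real.eq_one_of_pos_of_log_eq_zero p3 h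
  have f4 : ∑ᶠ (w : FinitePlace L) (_ : ∃ v ∈ T, Above v w), prF a x w ≤
      ∑ w ∈ S, prF a x w := by
    have e1 : ∑ᶠ (w : FinitePlace L) (_ : ∃ v ∈ T, Above v w), prF a x w =
        ∑ᶠ w : FinitePlace L, Set.indicator {w : FinitePlace L | ∃ v ∈ T, Above v w}
          (fun w => prF a x w) w :=
      finsum_mem_def {w : FinitePlace L | ∃ v ∈ T, Above v w} (fun w => prF a x w)
    rw [e1, finsum_eq_sum_of_support_subset (s := S)]
    · apply Finset.sum_le_sum
      intro w _
      exact Set.indicator_le_self' (fun w _ => hlow w) w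
    · intro w hw
      have hw' : prF a x w ≠ 0 := by
        intro h
        apply hw
        by_cases hm : w ∈ {w : FinitePlace L | ∃ v ∈ T, Above v w}
        · rw [Set.indicator_of_mem hm]; exact h
        · rw [Set.indicator_of_notMem hm]
      by_contra hcon
      apply hw'
      simp only [hS, Finset.coe_union, Set.Finite.coe_toFinset, Set.mem_union,
        Function.mem_support, not_or, not_not] at hcon
      rw [hF w, hcon.1.1, hcon.1.2, hcon.2]
      ring
  -- product formula
  have hpf : (∑ w : InfinitePlace L, (w.mult : ℝ) * Real.log (w l)) +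
      ∑ w ∈ S, Real.log (w l) = 0 := by
    have h3 := prod_abs_eq_one hl
    rw [f3] at h3
    have h4 := congrArg Real.log h3
    rw [Real.log_one, Real.log_mul, Real.log_prod, Real.log_prod] at h4
    · rw [← h4]
      congr 1
      apply Finset.sum_congr rfl
      intro w _
      rw [Real.log_pow]
    · intro w _; exact (FinitePlace.pos_iff.2 hl).ne'
    · intro w _; exact (pow_pos (InfinitePlace.pos_iff.2 hl) _).ne'
    · exact (Finset.prod_pos fun w _ => pow_pos (InfinitePlace.pos_iff.2 hl) _).ne'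
    · exact (Finset.prod_pos fun w _ => FinitePlace.pos_iff.2 hl).ne'
  have hsumI : ∑ w : InfinitePlace L, (w.mult : ℝ) * prI a x w =
      (∑ w : InfinitePlace L, (w.mult : ℝ) * Real.log (⨆ j, w (x j))) +
      (∑ w : InfinitePlace L, (w.mult : ℝ) * Real.log (⨆ j, w (algebraMap k L (a j)))) -
      ∑ w : InfinitePlace L, (w.mult : ℝ) * Real.log (w l) := by
    rw [← Finset.sum_add_distrib, ← Finset.sum_sub_distrib]
    apply Finset.sum_congr rfl
    intro w _
    rw [hI w]
    ring
  have hsumF : ∑ w ∈ S, prF a x w =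
      (∑ w ∈ S, Real.log (⨆ j, w (x j))) +
      (∑ w ∈ S, Real.log (⨆ j, w (algebraMap k L (a j)))) -
      ∑ w ∈ S, Real.log (w l) := by
    rw [← Finset.sum_add_distrib, ← Finset.sum_sub_distrib]
    apply Finset.sum_congr rfl
    intro w _
    rw [hF w]
  rw [f2] at hC
  rw [f1]
  rw [hsumF] at f4
  rw [hsumI]
  linarith

/-- at a place at most `d n` proximities are large -/
theorem lam_few (hAb : PlAbove) {n q : ℕ} (a : Fin q → Fin (n + 1) → k)
    (σd : ℕ) (σ : Fin σd → (L →ₐ[k] AlgebraicClosure k)) (x : Fin (n + 1) → L) (c C : ℝ)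
    (hc : 0 < c) (hcC : 2 * (Module.finrank k L : ℝ) * c ≤ C)
    (hI : ∀ w : InfinitePlace L, ∀ s : Finset (Fin q), (∀ i ∈ s, c < prI (a i) x w) → s.card ≤ n)
    (hF : ∀ w : FinitePlace L, (∃ v ∈ T, Above v w) →
        ∀ s : Finset (Fin q), (∀ i ∈ s, c < prF (a i) x w) → s.card ≤ n)
    (v : SP k T) (s : Finset (Fin q)) (hs : ∀ i ∈ s, C < (ptOf T a σ x).lam v i) :
    s.card ≤ Module.finrank k L * n := by
  classical
  rcases v with v | v
  · have hsub : s ⊆ (Finset.univ : Finset (AbI L v)).biUnion
        (fun w => s.filter (fun i => c < prI (a i) x w.1)) := by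
      intro i hi
      rw [Finset.mem_biUnion]
      by_contra hcon
      push Not at hcon
      have h1 : ∀ w : AbI L v, prI (a i) x w.1 ≤ c := by
        intro w
        have := hcon w (Finset.mem_univ _)
        rw [Finset.mem_filter, not_and, not_lt] at this
        exact this hi
      have h2 : (ptOf T a σ x).lam (Sum.inl v) i =
          ∑ w : AbI L v, (w.1.mult : ℝ) * prI (a i) x w.1 := rfl
      have h3 := hs i hi
      rw [h2] at h3
      have h4 : ∑ w : AbI L v, (w.1.mult : ℝ) * prI (a i) x w.1 ≤ ∑ w : AbI L v, 2 * c := by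
        apply Finset.sum_le_sum
        intro w _
        have h5 : (w.1.mult : ℝ) ≤ 2 := by exact_mod_cast multI_le w.1
        calc (w.1.mult : ℝ) * prI (a i) x w.1 ≤ (w.1.mult : ℝ) * c :=
              mul_le_mul_of_nonneg_left (h1 w) (by positivity)
          _ ≤ 2 * c := mul_le_mul_of_nonneg_right h5 hc.le
      rw [Finset.sum_const, Finset.card_univ, nsmul_eq_mul] at h4
      have h6 : (Fintype.card (AbI L v) : ℝ) ≤ Module.finrank k L := by
        exact_mod_cast (hAb k L).2 v
      have h7 : (Fintype.card (AbI L v) : ℝ) * (2 * c) ≤ Module.finrank k L * (2 * c) :=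
        mul_le_mul_of_nonneg_right h6 (by positivity)
      linarith
    calc s.card ≤ _ := Finset.card_le_card hsub
      _ ≤ ∑ w : AbI L v, (s.filter (fun i => c < prI (a i) x w.1)).card :=
          Finset.card_biUnion_le
      _ ≤ ∑ w : AbI L v, n := by
          apply Finset.sum_le_sum
          intro w _
          apply hI w.1
          intro i hi
          exact (Finset.mem_filter.1 hi).2
      _ = Fintype.card (AbI L v) * n := by
          rw [Finset.sum_const, Finset.card_univ, smul_eq_mul]
      _ ≤ _ := Nat.mul_le_mul_right _ ((hAb k L).2 v)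
  · have hfin := ((hAb k L).1 v.1).1
    have hcard : hfin.toFinset.card ≤ Module.finrank k L := by
      have := ((hAb k L).1 v.1).2
      rwa [Set.ncard_eq_toFinset_card _ hfin] at this
    have hsub : s ⊆ hfin.toFinset.biUnion
        (fun w => s.filter (fun i => c < prF (a i) x w)) := by
      intro i hi
      rw [Finset.mem_biUnion]
      by_contra hcon
      push Not at hcon
      have h1 : ∀ w ∈ hfin.toFinset, prF (a i) x w ≤ c := by
        intro w hw
        have := hcon w hw
        rw [Finset.mem_filter, not_and, not_lt] at this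
        exact this hi
      have h2 : (ptOf T a σ x).lam (Sum.inr v) i =
          ∑ᶠ (w : FinitePlace L) (_ : Above v.1 w), prF (a i) x w := rfl
      have h3 := hs i hi
      rw [h2, fsum v.1 hfin] at h3
      have h4 : ∑ w ∈ hfin.toFinset, prF (a i) x w ≤ ∑ w ∈ hfin.toFinset, c :=
        Finset.sum_le_sum h1
      rw [Finset.sum_const, nsmul_eq_mul] at h4
      have h6 : (hfin.toFinset.card : ℝ) ≤ Module.finrank k L := by
        exact_mod_cast hcard
      have h7 : (hfin.toFinset.card : ℝ) * c ≤ Module.finrank k L * c :=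
        mul_le_mul_of_nonneg_right h6 hc.le
      have h8 : (0:ℝ) ≤ Module.finrank k L * c := by positivity
      linarith
    calc s.card ≤ _ := Finset.card_le_card hsub
      _ ≤ ∑ w ∈ hfin.toFinset, (s.filter (fun i => c < prF (a i) x w)).card :=
          Finset.card_biUnion_le
      _ ≤ ∑ w ∈ hfin.toFinset, n := by
          apply Finset.sum_le_sum
          intro w hw
          rw [Set.Finite.mem_toFinset] at hw
          apply hF w ⟨v.1, v.2, hw⟩
          intro i hi
          exact (Finset.mem_filter.1 hi).2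
      _ = hfin.toFinset.card * n := by
          rw [Finset.sum_const, smul_eq_mul]
      _ ≤ _ := Nat.mul_le_mul_right _ hcard

theorem ptAll (hBel : PlBelow) (hAb : PlAbove) (hN : PlNorm) (hPow : PlPow) (hEK : EvalK)
    (hEF : EvalFin) (hEI : EvalInf) (hNI : NormInf) (hLow : PrLow) (hFew : PrFew)
    (hHt : HtHyp) (hSums : PtSums) : PtAll := by
  classical
  intro k _ _ T n q d a hn hd ha
  obtain ⟨c, hc, hfew⟩ := hFew k T n q d a ha
  choose Ch hCh using fun i => hHt k n d (a i) (GP.ne_zero ha i)
  set C1 : ℝ := (∑ v : InfinitePlace k, ∑ i, szI (a i) v ^ (2 * d)) +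
    ∑ v ∈ T, ∑ i, szF (a i) v ^ (d * d) with hC1
  set C2 : ℝ := 2 * d * Real.log (n + 1) with hC2
  set C3 : ℝ := 2 * d * c with hC3
  set C4 : ℝ := ∑ i, |Ch i| with hC4
  have hI1 : ∀ (i : Fin q) (v : InfinitePlace k), 1 ≤ szI (a i) v := fun i v => le_max_left _ _
  have hF1 : ∀ (i : Fin q) (v : FinitePlace k), 1 ≤ szF (a i) v := fun i v => le_max_left _ _
  have hI0 : ∀ (i : Fin q) (v : InfinitePlace k) (m : ℕ), 0 ≤ szI (a i) v ^ m := fun i v m =>
    pow_nonneg (zero_le_one.trans (hI1 i v)) _
  have hF0 : ∀ (i : Fin q) (v : FinitePlace k) (m : ℕ), 0 ≤ szF (a i) v ^ m := fun i v m =>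
    pow_nonneg (zero_le_one.trans (hF1 i v)) _
  have hA0 : 0 ≤ ∑ v : InfinitePlace k, ∑ i, szI (a i) v ^ (2 * d) :=
    Finset.sum_nonneg fun v _ => Finset.sum_nonneg fun i _ => hI0 i v _
  have hB0 : 0 ≤ ∑ v ∈ T, ∑ i, szF (a i) v ^ (d * d) :=
    Finset.sum_nonneg fun v _ => Finset.sum_nonneg fun i _ => hF0 i v _
  have h10 : 0 ≤ C1 := add_nonneg hA0 hB0
  have h20 : 0 ≤ C2 := by
    have : 0 ≤ Real.log ((n : ℝ) + 1) := Real.log_nonneg (by
      have : (0 : ℝ) ≤ n := Nat.cast_nonneg n
      linarith)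
    positivity
  have h30 : 0 ≤ C3 := by positivity
  have h40 : 0 ≤ C4 := Finset.sum_nonneg fun i _ => abs_nonneg _
  refine ⟨C1 + C2 + C3 + C4, fun m f => (∑ v : InfinitePlace k,
    (∑ e ∈ f.support, v (coeff e f)) ^ v.mult) + ∑ v ∈ T, ∑ e ∈ f.support, v (coeff e f), ?_⟩
  intro L _ _ _ hfr σ x hx hl
  have : FiniteDimensional k L := Module.finite_of_finrank_pos (by omega)
  obtain ⟨hfI, hfF⟩ := hfew L hfr x hx hl
  have hX : ∀ v : SP k T, 0 < (ptOf T a σ x).X v := by
    intro v
    rcases v with v | v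
    · exact XInf_pos x hx v
    · exact XFin_pos x hx v.1
  constructor
  · exact hX
  · exact z_fin hBel a σ x hx
  · intro w hw
    simp only [ptOf, hw, if_true]
  · exact (hSums k T n q d a L σ x hx).2.2
  · -- val
    intro m f hf
    obtain ⟨y, hy⟩ := (hEK k L d n σ x).1 m f hf
    refine ⟨y, hy, ?_, ?_⟩
    · intro v
      have hT0 : 0 ≤ ∑ v ∈ T, ∑ e ∈ f.support, v (coeff e f) :=
        Finset.sum_nonneg fun v _ => Finset.sum_nonneg fun e _ => apply_nonneg v _
      have hI0' : 0 ≤ ∑ v : InfinitePlace k, (∑ e ∈ f.support, v (coeff e f)) ^ v.mult :=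
        Finset.sum_nonneg fun v _ => pow_nonneg (Finset.sum_nonneg fun e _ => apply_nonneg v _) _
      rcases v with v | v
      · have h1 := hEI k L d n σ x hx v m f hf y hy
        refine h1.trans ?_
        apply mul_le_mul_of_nonneg_right _ (pow_nonneg (XInf_pos x hx v).le _)
        have h2 : (∑ e ∈ f.support, v (coeff e f)) ^ v.mult ≤
            ∑ v : InfinitePlace k, (∑ e ∈ f.support, v (coeff e f)) ^ v.mult :=
          Finset.single_le_sum (f := fun v : InfinitePlace k =>
            (∑ e ∈ f.support, v (coeff e f)) ^ v.mult)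
            (fun v _ => pow_nonneg (Finset.sum_nonneg fun e _ => apply_nonneg v _) _)
            (Finset.mem_univ v)
        linarith
      · have hb : ∀ e, v.1 (coeff e f) ≤ ∑ e ∈ f.support, v.1 (coeff e f) := by
          intro e
          by_cases he : e ∈ f.support
          · exact Finset.single_le_sum (f := fun e => v.1 (coeff e f))
              (fun e _ => apply_nonneg v.1 _) he
          · rw [MvPolynomial.notMem_support_iff.1 he, map_zero]
            exact Finset.sum_nonneg fun e _ => apply_nonneg v.1 _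
        have h1 := hEF k L d n σ x hx v.1 m _ f hf hb y hy
        refine h1.trans ?_
        apply mul_le_mul_of_nonneg_right _ (pow_nonneg (XFin_pos x hx v.1).le _)
        have h2 : ∑ e ∈ f.support, v.1 (coeff e f) ≤
            ∑ v ∈ T, ∑ e ∈ f.support, v (coeff e f) :=
          Finset.single_le_sum (f := fun v : FinitePlace k => ∑ e ∈ f.support, v (coeff e f))
            (fun v _ => Finset.sum_nonneg fun e _ => apply_nonneg v _) v.2
        linarith
    · intro hint w hw
      have hb : ∀ e, w (coeff e f) ≤ 1 := by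
        intro e
        obtain ⟨b, hb⟩ := hint e
        rw [hb]
        exact SInt.of_int (T := ∅) b w (by simp)
      have h1 := hEF k L d n σ x hx w m 1 f hf hb y hy
      rw [one_mul, z_eq hPow a σ x hx w hw] at h1
      refine h1.trans (le_of_eq ?_)
      rw [← zpow_natCast, ← zpow_mul, mul_comm]
  · -- norm
    intro i
    refine ⟨Algebra.norm k (∑ j, algebraMap k L (a i j) * x j), (hEK k L d n σ x).2 (a i), ?_, ?_⟩
    · rw [Algebra.norm_ne_zero_iff]
      exact hl i
    · intro v
      rcases v with v | v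
      · have h1 := norm_inf hAb hNI (a i) (GP.ne_zero ha i) x hx (hl i) v
        rw [hfr] at h1
        refine h1.trans ?_
        show _ ≤ (C1 + C2 + C3 + C4) * XInf x v *
          Real.exp (-∑ w : AbI L v, (w.1.mult : ℝ) * prI (a i) x w.1)
        apply mul_le_mul_of_nonneg_right _ (Real.exp_pos _).le
        apply mul_le_mul_of_nonneg_right _ (XInf_pos x hx v).le
        have h2 : szI (a i) v ^ (2 * d) ≤ ∑ v : InfinitePlace k, ∑ i, szI (a i) v ^ (2 * d) :=
          (Finset.single_le_sum (f := fun i => szI (a i) v ^ (2 * d))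
            (fun i _ => hI0 i v _) (Finset.mem_univ i)).trans
          (Finset.single_le_sum (f := fun v : InfinitePlace k => ∑ i, szI (a i) v ^ (2 * d))
            (fun v _ => Finset.sum_nonneg fun i _ => hI0 i v _) (Finset.mem_univ v))
        linarith
      · have h1 := norm_fin hAb hPow hN (a i) (GP.ne_zero ha i) x hx (hl i) v.1
        rw [hfr] at h1
        refine h1.trans ?_
        show _ ≤ (C1 + C2 + C3 + C4) * XFin x v.1 *
          Real.exp (-∑ᶠ (w : FinitePlace L) (_ : Above v.1 w), prF (a i) x w)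
        apply mul_le_mul_of_nonneg_right _ (Real.exp_pos _).le
        apply mul_le_mul_of_nonneg_right _ (XFin_pos x hx v.1).le
        have h2 : szF (a i) v.1 ^ (d * d) ≤ ∑ v ∈ T, ∑ i, szF (a i) v ^ (d * d) :=
          (Finset.single_le_sum (f := fun i => szF (a i) v.1 ^ (d * d))
            (fun i _ => hF0 i v.1 _) (Finset.mem_univ i)).trans
          (Finset.single_le_sum (f := fun v : FinitePlace k => ∑ i, szF (a i) v ^ (d * d))
            (fun v _ => Finset.sum_nonneg fun i _ => hF0 i v _) v.2)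
        linarith
  · -- lower bound
    intro v i
    obtain ⟨hlI, hlF⟩ := hLow k L n (a i) x (hl i)
    rcases v with v | v
    · show -(C1 + C2 + C3 + C4) ≤ ∑ w : AbI L v, (w.1.mult : ℝ) * prI (a i) x w.1
      have hlog : 0 ≤ Real.log ((n : ℝ) + 1) := Real.log_nonneg (by
        have : (0 : ℝ) ≤ n := Nat.cast_nonneg n
        linarith)
      have h1 : ∑ w : AbI L v, (-(2 * Real.log ((n : ℝ) + 1))) ≤
          ∑ w : AbI L v, (w.1.mult : ℝ) * prI (a i) x w.1 := by
        apply Finset.sum_le_sum
        intro w _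
        have h5 : (w.1.mult : ℝ) ≤ 2 := by exact_mod_cast multI_le w.1
        calc (-(2 * Real.log ((n : ℝ) + 1))) ≤ (w.1.mult : ℝ) * (-Real.log ((n : ℝ) + 1)) := by
              nlinarith
          _ ≤ (w.1.mult : ℝ) * prI (a i) x w.1 :=
              mul_le_mul_of_nonneg_left (hlI w.1) (by positivity)
      rw [Finset.sum_const, Finset.card_univ, nsmul_eq_mul] at h1
      have h6 : (Fintype.card (AbI L v) : ℝ) ≤ d := by
        rw [← hfr]
        exact_mod_cast (hAb k L).2 v
      have h7 : (Fintype.card (AbI L v) : ℝ) * (2 * Real.log ((n : ℝ) + 1)) ≤ C2 := by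
        rw [hC2]
        nlinarith
      linarith
    · show -(C1 + C2 + C3 + C4) ≤ ∑ᶠ (w : FinitePlace L) (_ : Above v.1 w), prF (a i) x w
      have hfin := ((hAb k L).1 v.1).1
      rw [fsum v.1 hfin]
      have : 0 ≤ ∑ w ∈ hfin.toFinset, prF (a i) x w := Finset.sum_nonneg fun w _ => hlF w
      linarith
  · -- few
    intro v s hs
    rw [← hfr]
    refine lam_few (T := T) hAb a d σ x c (C1 + C2 + C3 + C4) hc ?_ hfI hfF v s hs
    rw [hfr]
    linarith
  · -- sum
    intro i
    have h1 := lam_sum (T := T) hSums hLow (a i) (GP.ne_zero ha i) σ x hx (hl i) (Ch i)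
      (hCh i L hfr)
    have h2 : (ptOf T (fun _ : Fin 1 => a i) σ x).tot = ∑ v, (ptOf T a σ x).lam v i := by
      unfold Pt.tot
      apply Finset.sum_congr rfl
      intro v _
      rw [Finset.univ_unique, Finset.sum_singleton]
      rcases v with v | v <;> rfl
    have h3 : (ptOf T (fun _ : Fin 1 => a i) σ x).H = (ptOf T a σ x).H := rfl
    rw [h2, h3] at h1
    have h4 : Ch i ≤ C4 := (le_abs_self _).trans
      (Finset.single_le_sum (f := fun i => |Ch i|) (fun i _ => abs_nonneg _) (Finset.mem_univ i))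
    linarith

end final

end Pool.Agent.Helper74.Ru
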