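import Pool.Agent.Helper92.Ru.GoalsS

/-!
# Packet WwdGap (S17) for MP_d1d051_nt: a gap for `W` gives a gap for `W^`
-/

set_option autoImplicit false

open NumberField

namespace Pool.Agent.Helper74.Ru

open Pool.Agent.Helper92.Ru

variable {k : Type} [Field k] [NumberField k] {T : Finset (FinitePlace k)}

theorem HH_nonneg' {ι : Type} [Fintype ι] (A : SP k T → Matrix ι ι k) (w : SP k T → ι → ℝ)
    (hw : ∀ v i, 0 < w v i) (x : ι → k) : 0 ≤ HH A w x := by
  apply Finset.prod_nonneg
  intro v _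
  apply Real.iSup_nonneg
  intro i
  exact div_nonneg (nS_nonneg v _) (hw v i).le

theorem HH_pos' {ι : Type} [Fintype ι] [DecidableEq ι] (A : SP k T → Matrix ι ι k)
    (hA : ∀ v, (A v).det ≠ 0) (w : SP k T → ι → ℝ)
    (hw : ∀ v i, 0 < w v i) (x : ι → k) (hx : x ≠ 0) : 0 < HH A w x := by
  apply Finset.prod_pos
  intro v _
  have h1 : (A v).mulVec x ≠ 0 := by
    intro h
    exact hx (Matrix.eq_zero_of_mulVec_eq_zero (hA v) h)
  obtain ⟨i, hi⟩ := Function.ne_iff.1 h1
  have h2 : 0 < nS v ((A v).mulVec x i) / w v i := div_pos (nS_pos v hi) (hw v i)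
  exact h2.trans_le (le_ciSup (f := fun i => nS v ((A v).mulVec x i) / w v i)
    (Set.finite_range _).bddAbove i)

/-- structure of the greedy vectors in the presence of a gap -/
theorem greedy_gap {N p : ℕ} (hp : p ≤ N) (A : SP k T → Matrix (Fin N) (Fin N) k)
    (w : SP k T → Fin N → ℝ) (x : Fin N → Fin N → k) (hli : LinearIndependent k x)
    (hsi : ∀ j, SIntV T (x j))
    (hg : ∀ j, ∀ y : Fin N → k, SIntV T y →
      y ∉ Submodule.span k (x '' {j' | j' < j}) → HH A w (x j) ≤ 2 * HH A w y)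
    (R G : ℝ) (hR : 0 < R) (hG : 2 < G) (W : Submodule k (Fin N → k))
    (hW : Module.finrank k W = p) (hgap : Gap A w R G W) :
    (∀ j : Fin N, (j : ℕ) < p → x j ∈ W ∧ HH A w (x j) ≤ 2 * R) ∧
      W = Submodule.span k (x '' {j | (j : ℕ) < p}) ∧
      ∀ j : Fin N, p ≤ (j : ℕ) → R * G ≤ HH A w (x j) := by
  classical
  obtain ⟨hg1, hg2⟩ := hgap
  have h1 : ∀ n : ℕ, ∀ j : Fin N, (j : ℕ) = n → n < p → x j ∈ W ∧ HH A w (x j) ≤ 2 * R := by
    intro n
    induction n using Nat.strong_induction_on with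
    | _ n ih =>
      intro j hj hn
      have hex : ∃ y ∈ W, SIntV T y ∧ HH A w y ≤ R ∧
          y ∉ Submodule.span k (x '' {j' | j' < j}) := by
        by_contra hcon
        push Not at hcon
        have hle : W ≤ Submodule.span k (x '' {j' | j' < j}) := by
          refine hg1.trans (Submodule.span_le.2 ?_)
          rintro y ⟨hy1, hy2, hy3⟩
          exact hcon y hy1 hy2 hy3
        have h2 := Submodule.finrank_mono hle
        have h3 : Module.finrank k (Submodule.span k (x '' {j' | j' < j})) ≤ (j : ℕ) := by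
          have h4 : (x '' {j' | j' < j}) = ((Finset.Iio j).image x : Finset (Fin N → k)) := by
            ext z; simp
          rw [h4]
          refine (finrank_span_finset_le_card _).trans ?_
          refine Finset.card_image_le.trans ?_
          simp
        omega
      obtain ⟨y, hyW, hyS, hyR, hyn⟩ := hex
      have h5 : HH A w (x j) ≤ 2 * R := by
        have := hg j y hyS hyn
        linarith
      refine ⟨?_, h5⟩
      by_contra hxW
      have := hg2 (x j) (hsi j) hxW
      nlinarith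
  have h1' : ∀ j : Fin N, (j : ℕ) < p → x j ∈ W ∧ HH A w (x j) ≤ 2 * R := fun j hj =>
    h1 j j rfl hj
  have h2 : W = Submodule.span k (x '' {j | (j : ℕ) < p}) := by
    symm
    apply Submodule.eq_of_le_of_finrank_le
    · rw [Submodule.span_le]
      rintro _ ⟨j, hj, rfl⟩
      exact (h1' j hj).1
    · have h3 : (x '' {j | (j : ℕ) < p}) = Set.range (x ∘ Fin.castLE hp) := by
        ext z
        constructor
        · rintro ⟨j, hj, rfl⟩
          exact ⟨⟨j, hj⟩, rfl⟩
        · rintro ⟨j, rfl⟩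
          exact ⟨Fin.castLE hp j, j.2, rfl⟩
      rw [h3, finrank_span_eq_card (hli.comp _ (Fin.castLE_injective hp)), hW]
      simp
  refine ⟨h1', h2, ?_⟩
  intro j hj
  apply hg2 _ (hsi j)
  rw [h2]
  apply hli.notMem_span_image
  simp only [Set.mem_setOf_eq, not_lt]
  exact hj

theorem prod_emb {r N : ℕ} (f : Fin N → ℝ) (I : JJ r N) :
    ∏ a, f (I.emb a) = ∏ j ∈ I.1, f j := by
  have h := Finset.map_orderEmbOfFin_univ I.1 I.2
  conv_rhs => rw [← h]
  rw [Finset.prod_map]
  rfl

/-- the top index set -/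
def I0 (r N : ℕ) (hr : r ≤ N) : JJ r N :=
  ⟨Finset.univ.filter (fun j : Fin N => N - r ≤ (j : ℕ)), by
    rcases Nat.eq_zero_or_pos r with h0 | h0
    · subst h0
      rw [Finset.card_eq_zero, Finset.filter_eq_empty_iff]
      intro j _
      have := j.2
      omega
    · have hN : N - r < N := by omega
      have : Finset.univ.filter (fun j : Fin N => N - r ≤ (j : ℕ)) =
          Finset.Ici (⟨N - r, hN⟩ : Fin N) := by
        ext j
        simp [Fin.le_def]
      rw [this, Fin.card_Ici]
      simp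
      omega⟩

theorem mem_I0 {r N : ℕ} (hr : r ≤ N) (j : Fin N) : j ∈ (I0 r N hr).1 ↔ N - r ≤ (j : ℕ) := by
  simp [I0]

theorem ne_I0_iff {r N : ℕ} (hr : r ≤ N) (I : JJ r N) :
    I ≠ I0 r N hr ↔ ∃ b, ((I.emb b : Fin N) : ℕ) < N - r := by
  constructor
  · intro h
    by_contra hcon
    push Not at hcon
    apply h
    apply Subtype.ext
    apply Finset.eq_of_subset_of_card_le
    · intro j hj
      have hj' : j ∈ Set.range (I.1.orderEmbOfFin I.2) := by
        rw [Finset.range_orderEmbOfFin]; exact hj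
      obtain ⟨b, rfl⟩ := hj'
      rw [mem_I0]
      exact hcon b
    · rw [I.2, (I0 r N hr).2]
  · rintro ⟨b, hb⟩ rfl
    have : (I0 r N hr).emb b ∈ (I0 r N hr).1 := Finset.orderEmbOfFin_mem _ _ _
    rw [mem_I0] at this
    omega

theorem prod_le_of_ne {r N : ℕ} (hr : r ≤ N) (f : Fin N → ℝ) (hf : ∀ j, 0 < f j) (R G : ℝ)
    (hR : 0 < R) (hG : 2 < G) (h1 : ∀ j : Fin N, (j : ℕ) < N - r → f j ≤ 2 * R)
    (h2 : ∀ j : Fin N, N - r ≤ (j : ℕ) → R * G ≤ f j) (I : JJ r N) (hI : I ≠ I0 r N hr) :
    ∏ j ∈ I.1, f j ≤ 2 / G * ∏ j ∈ (I0 r N hr).1, f j := by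
  classical
  set J := (I0 r N hr).1 with hJ
  have hcard : (I.1 \ J).card = (J \ I.1).card := by
    have e1 := Finset.card_sdiff_add_card_inter I.1 J
    have e2 := Finset.card_sdiff_add_card_inter J I.1
    rw [Finset.inter_comm] at e2
    have e3 : I.1.card = r := I.2
    have e4 : J.card = r := (I0 r N hr).2
    omega
  set t := (I.1 \ J).card with ht
  have ht1 : 1 ≤ t := by
    rw [Nat.one_le_iff_ne_zero]
    intro h0
    rw [h0] at ht
    have h3 := Finset.card_eq_zero.1 ht.symm
    rw [Finset.sdiff_eq_empty_iff_subset] at h3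
    apply hI
    apply Subtype.ext
    apply Finset.eq_of_subset_of_card_le h3
    rw [I.2, (I0 r N hr).2]
  have hA : ∏ j ∈ I.1 \ J, f j ≤ (2 * R) ^ t := by
    rw [ht, ← Finset.prod_const]
    apply Finset.prod_le_prod
    · intro j _; exact (hf j).le
    · intro j hj
      rw [Finset.mem_sdiff, hJ, mem_I0] at hj
      exact h1 j (by omega)
  have hB : (R * G) ^ t ≤ ∏ j ∈ J \ I.1, f j := by
    rw [hcard, ← Finset.prod_const]
    apply Finset.prod_le_prod
    · intro j _; positivity
    · intro j hj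
      rw [Finset.mem_sdiff, hJ, mem_I0] at hj
      exact h2 j hj.1
  have e1 : ∏ j ∈ I.1, f j = (∏ j ∈ I.1 ∩ J, f j) * ∏ j ∈ I.1 \ J, f j :=
    (Finset.prod_inter_mul_prod_diff I.1 J f).symm
  have e2 : ∏ j ∈ J, f j = (∏ j ∈ I.1 ∩ J, f j) * ∏ j ∈ J \ I.1, f j := by
    rw [Finset.inter_comm]
    exact (Finset.prod_inter_mul_prod_diff J I.1 f).symm
  rw [e1, e2]
  have hP : 0 < ∏ j ∈ I.1 ∩ J, f j := Finset.prod_pos fun j _ => hf j
  have h3 : (2 * R) ^ t = (2 / G) ^ t * (R * G) ^ t := by
    rw [← mul_pow]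
    congr 1
    field_simp
  have h4 : (2 / G) ^ t ≤ 2 / G := by
    have h5 : 2 / G ≤ 1 := by rw [div_le_one (by linarith)]; linarith
    calc (2 / G) ^ t ≤ (2 / G) ^ 1 := pow_le_pow_of_le_one (by positivity) h5 ht1
      _ = 2 / G := pow_one _
  have h6 : ∏ j ∈ I.1 \ J, f j ≤ 2 / G * ∏ j ∈ J \ I.1, f j := by
    calc ∏ j ∈ I.1 \ J, f j ≤ (2 * R) ^ t := hA
      _ = (2 / G) ^ t * (R * G) ^ t := h3
      _ ≤ 2 / G * ∏ j ∈ J \ I.1, f j := by
          apply mul_le_mul h4 hB (by positivity) (by positivity)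
  calc (∏ j ∈ I.1 ∩ J, f j) * ∏ j ∈ I.1 \ J, f j
      ≤ (∏ j ∈ I.1 ∩ J, f j) * (2 / G * ∏ j ∈ J \ I.1, f j) :=
        mul_le_mul_of_nonneg_left h6 hP.le
    _ = _ := by ring

theorem wwdGap (hDet : DetLB) (hGr : GreedyEx) (hM2 : M2) (hC : CmpdBasic) (hWd : WdHH)
    (hSub : SubsetProd) (hWwd : WwdBasic) : WwdGap := by
  classical
  intro k _ _ T r N hr hrN A hA
  haveI : Nonempty (Fin N) := ⟨⟨0, by omega⟩⟩
  haveI : Nonempty (JJ r N) := ⟨I0 r N hrN.le⟩
  obtain ⟨C1, hC1, hwd⟩ := hWd k T r N hr hrN.le A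
  obtain ⟨C2, hC2, hdet⟩ := hDet k T (JJ r N) (fun v => cmpd r (A v))
    (fun v => (hC k r N).2.2.1 (A v) (hA v))
  obtain ⟨C3, hC3, hm2⟩ := hM2 k T (Fin N) A hA
  set m := Fintype.card (JJ r N) - 1 with hm
  set c := (N - 1).choose (r - 1) with hc
  refine ⟨3 + 2 * C1 * (C2 * C1 ^ m * C3 ^ c), ?_, ?_⟩
  · have : 0 < 2 * C1 * (C2 * C1 ^ m * C3 ^ c) := by positivity
    linarith
  intro w R G hw hR hG W hW hgap
  have hK : 0 < 2 * C1 * (C2 * C1 ^ m * C3 ^ c) := by positivity
  have hG2 : 2 < G := by linarith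
  -- greedy vectors
  obtain ⟨x0, hx0⟩ := hGr k T (Fin N) A hA w hw
  have hm2' := hm2 w hw x0 hx0
  obtain ⟨g1, g2, g3⟩ := hx0
  have hcN : N = Fintype.card (Fin N) := (Fintype.card_fin N).symm
  set x : Fin N → Fin N → k := fun j => x0 (Fin.cast hcN j) with hx
  have hli : LinearIndependent k x := g1.comp _ (Fin.cast_injective hcN)
  have hsi : ∀ j, SIntV T (x j) := fun j => g2 _
  have hg : ∀ j, ∀ y : Fin N → k, SIntV T y →
      y ∉ Submodule.span k (x '' {j' | j' < j}) → HH A w (x j) ≤ 2 * HH A w y := by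
    intro j y hy hyn
    apply g3 (Fin.cast hcN j) y hy
    intro hcon
    apply hyn
    refine Submodule.span_mono ?_ hcon
    rintro _ ⟨j', hj', rfl⟩
    refine ⟨Fin.cast hcN.symm j', ?_, ?_⟩
    · show Fin.cast hcN.symm j' < j
      have : j' < Fin.cast hcN j := hj'
      rw [Fin.lt_def] at this ⊢
      simpa using this
    · show x0 (Fin.cast hcN (Fin.cast hcN.symm j')) = x0 j'
      simp
  have hprod : (∏ v, ∏ i, w v i) * ∏ j, HH A w (x j) ≤ C3 := by
    have : ∏ j, HH A w (x j) = ∏ j, HH A w (x0 j) := by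
      apply Fintype.prod_equiv (finCongr hcN)
      intro j
      rfl
    rw [this]
    exact hm2'
  have hfr : Module.finrank k W = N - r := by omega
  obtain ⟨s1, s2, s3⟩ := greedy_gap (Nat.sub_le N r) A w x hli hsi hg R G hR hG2 W hfr hgap
  set f : Fin N → ℝ := fun j => HH A w (x j) with hf
  have hfpos : ∀ j, 0 < f j := fun j => HH_pos' A hA w hw (x j) (hli.ne_zero j)
  set J := I0 r N hrN.le with hJ
  set La := ∏ j ∈ J.1, f j with hLa
  have hLapos : 0 < La := Finset.prod_pos fun j _ => hfpos j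
  have hprodI : ∀ I : JJ r N, I ≠ J → ∏ j ∈ I.1, f j ≤ 2 / G * La := fun I hI =>
    prod_le_of_ne hrN.le f hfpos R G hR hG2 (fun j hj => (s1 j hj).2) s3 I hI
  set WT : SP k T → JJ r N → ℝ := fun v K => ∏ a, w v (K.emb a) with hWT
  have hWTpos : ∀ v K, 0 < WT v K := fun v K => Finset.prod_pos fun a _ => hw v _
  set y : JJ r N → JJ r N → k := fun I => wd (fun b => x (I.emb b)) with hy
  have hyHH : ∀ I, HH (fun v => cmpd r (A v)) WT (y I) ≤ C1 * ∏ j ∈ I.1, f j := by
    intro I
    have := hwd w hw (fun b => x (I.emb b))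
    rw [← prod_emb f I]
    exact this
  have hyS : ∀ I, SIntV T (y I) := by
    intro I K
    exact SInt.det (fun a b => hsi _ _)
  obtain ⟨hb1, hb2⟩ := (hWwd k r N hr hrN).1 x hli W s2
  have hset : {I : JJ r N | ∃ b, ((I.emb b : Fin N) : ℕ) < N - r} = {I | I ≠ J} := by
    ext I
    exact (ne_I0_iff hrN.le I).symm
  rw [hset] at hb1
  refine ⟨2 * C1 * La / G, by positivity, ?_, ?_⟩
  · -- spanned by small points
    conv_lhs => rw [hb1]
    rw [Submodule.span_le]
    rintro _ ⟨I, hI, rfl⟩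
    apply Submodule.subset_span
    refine ⟨?_, hyS I, ?_⟩
    · rw [hb1]
      exact Submodule.subset_span ⟨I, hI, rfl⟩
    · refine (hyHH I).trans ?_
      calc C1 * ∏ j ∈ I.1, f j ≤ C1 * (2 / G * La) :=
            mul_le_mul_of_nonneg_left (hprodI I hI) hC1.le
        _ = 2 * C1 * La / G := by ring
  · intro z hz hzW
    -- independence
    set u : JJ r N → JJ r N → k := fun I => if I = J then z else y I with hu
    have hyli : LinearIndependent k y := (hC k r N).2.2.2.2 x hli
    have huli : LinearIndependent k u := by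
      rw [Fintype.linearIndependent_iff]
      intro g hg0
      have hsplit : g J • z + ∑ I ∈ Finset.univ.erase J, g I • y I = 0 := by
        rw [← hg0, ← Finset.add_sum_erase _ _ (Finset.mem_univ J)]
        congr 1
        · simp [hu]
        · apply Finset.sum_congr rfl
          intro I hI
          have : I ≠ J := (Finset.mem_erase.1 hI).1
          simp [hu, this]
      have hgJ : g J = 0 := by
        by_contra hne
        apply hzW
        have h1 : z = -(g J)⁻¹ • ∑ I ∈ Finset.univ.erase J, g I • y I := by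
          have h2 : g J • z = - ∑ I ∈ Finset.univ.erase J, g I • y I :=
            eq_neg_of_add_eq_zero_left hsplit
          calc z = (g J)⁻¹ • (g J • z) := by rw [smul_smul, inv_mul_cancel₀ hne, one_smul]
            _ = _ := by rw [h2, smul_neg, neg_smul]
        rw [h1, hb1]
        apply Submodule.smul_mem
        apply Submodule.sum_mem
        intro I hI
        apply Submodule.smul_mem
        exact Submodule.subset_span ⟨I, (Finset.mem_erase.1 hI).1, rfl⟩
      rw [hgJ, zero_smul, zero_add] at hsplit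
      have h3 : ∑ I, (if I = J then 0 else g I) • y I = 0 := by
        rw [← hsplit, ← Finset.add_sum_erase _ _ (Finset.mem_univ J)]
        simp only [if_true, zero_smul, zero_add]
        apply Finset.sum_congr rfl
        intro I hI
        rw [if_neg (Finset.mem_erase.1 hI).1]
      have h4 := (Fintype.linearIndependent_iff.1 hyli) _ h3
      intro I
      by_cases hI : I = J
      · rw [hI, hgJ]
      · have := h4 I
        rwa [if_neg hI] at this
    have huS : ∀ I, SIntV T (u I) := by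
      intro I
      by_cases hI : I = J
      · simp only [hu, hI, if_true]; exact hz
      · simp only [hu, hI, if_false]; exact hyS I
    have hd := hdet WT hWTpos (JJ r N) rfl u huli huS
    -- product of the weights
    have hWTprod : ∏ v, ∏ K, WT v K = (∏ v, ∏ i, w v i) ^ c := by
      rw [← Finset.prod_pow]
      apply Finset.prod_congr rfl
      intro v _
      exact hSub r N hr hrN.le (w v)
    set HHc : (JJ r N → k) → ℝ := fun z => HH (fun v => cmpd r (A v)) WT z with hHHc
    have hHHz : 0 ≤ HHc z := HH_nonneg' _ _ hWTpos z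
    have hprodu : ∏ I, HHc (u I) ≤ HHc z * (C1 ^ m * ∏ I ∈ Finset.univ.erase J, ∏ j ∈ I.1, f j) := by
      rw [← Finset.mul_prod_erase _ _ (Finset.mem_univ J)]
      have e1 : HHc (u J) = HHc z := by simp [hu]
      rw [e1]
      apply mul_le_mul_of_nonneg_left _ hHHz
      have e2 : ∏ I ∈ Finset.univ.erase J, HHc (u I) ≤
          ∏ I ∈ Finset.univ.erase J, (C1 * ∏ j ∈ I.1, f j) := by
        apply Finset.prod_le_prod
        · intro I _; exact HH_nonneg' _ _ hWTpos _
        · intro I hI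
          have : u I = y I := by simp [hu, (Finset.mem_erase.1 hI).1]
          rw [this]
          exact hyHH I
      refine e2.trans (le_of_eq ?_)
      rw [Finset.prod_mul_distrib, Finset.prod_const, Finset.card_erase_of_mem (Finset.mem_univ J),
        Finset.card_univ]
    have hprodall : (∏ I ∈ Finset.univ.erase J, ∏ j ∈ I.1, f j) * La = (∏ j, f j) ^ c := by
      have := hSub r N hr hrN.le f
      rw [← this, ← Finset.prod_erase_mul _ _ (Finset.mem_univ J)]
      congr 1
      · apply Finset.prod_congr rfl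
        intro I _
        exact (prod_emb f I).symm
      · exact (prod_emb f J).symm
    have hPe : 0 ≤ ∏ I ∈ Finset.univ.erase J, ∏ j ∈ I.1, f j :=
      Finset.prod_nonneg fun I _ => Finset.prod_nonneg fun j _ => (hfpos j).le
    have hwpos : 0 < ∏ v, ∏ i, w v i := Finset.prod_pos fun v _ => Finset.prod_pos fun i _ => hw v i
    have hfinal : La ≤ C2 * C1 ^ m * C3 ^ c * HHc z := by
      have e1 : 1 ≤ C2 * (∏ v, ∏ i, w v i) ^ c *
          (HHc z * (C1 ^ m * ∏ I ∈ Finset.univ.erase J, ∏ j ∈ I.1, f j)) := by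
        rw [hWTprod] at hd
        refine hd.trans ?_
        apply mul_le_mul_of_nonneg_left hprodu
        positivity
      have e2 : La ≤ C2 * (∏ v, ∏ i, w v i) ^ c *
          (HHc z * (C1 ^ m * ∏ I ∈ Finset.univ.erase J, ∏ j ∈ I.1, f j)) * La := by
        nlinarith
      have e3 : C2 * (∏ v, ∏ i, w v i) ^ c *
          (HHc z * (C1 ^ m * ∏ I ∈ Finset.univ.erase J, ∏ j ∈ I.1, f j)) * La =
          C2 * C1 ^ m * HHc z * ((∏ v, ∏ i, w v i) * ∏ j, f j) ^ c := by
        rw [mul_pow, ← hprodall]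
        ring
      rw [e3] at e2
      refine e2.trans ?_
      have e4 : ((∏ v, ∏ i, w v i) * ∏ j, f j) ^ c ≤ C3 ^ c := by
        apply pow_le_pow_left₀ _ hprod
        exact mul_nonneg hwpos.le (Finset.prod_nonneg fun j _ => (hfpos j).le)
      calc C2 * C1 ^ m * HHc z * ((∏ v, ∏ i, w v i) * ∏ j, f j) ^ c
          ≤ C2 * C1 ^ m * HHc z * C3 ^ c := mul_le_mul_of_nonneg_left e4 (by positivity)
        _ = _ := by ring
    set D := C2 * C1 ^ m * C3 ^ c with hD
    have hDpos : 0 < D := by positivity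
    have hG0 : 0 < G := by linarith
    have hCC : 0 < 3 + 2 * C1 * D := by positivity
    have e5 : 2 * C1 * La / G * (G / (3 + 2 * C1 * D)) = 2 * C1 * La / (3 + 2 * C1 * D) := by
      field_simp
    show 2 * C1 * La / G * (G / (3 + 2 * C1 * D)) ≤ HHc z
    rw [e5, div_le_iff₀ hCC]
    nlinarith [mul_nonneg hHHz hC1.le, mul_le_mul_of_nonneg_left hfinal hC1.le]

end Pool.Agent.Helper74.Ru
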